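import Mathlib
import Pool.Agent.V114.KakCx.Main

/-!
# Kakeya sets with few shapes of `b`-adic cells

`shape K b k z` is the part of `K` in the `b`-adic cell `∏ [z i / b ^ k, (z i + 1) / b ^ k)` of level
`k`, enlarged by the homothety which carries this cell onto the unit cube `[0, 1) ^ n`.

For almost every slope `v ∈ ℝ^m` the following holds for all bases `b` and all compact sets
`K ⊆ ℝ^n`, `n = m + 1`: if `K` contains a segment of positive length in the direction `(1, v)` and
the number of different shapes of `K` in the cells of level `k` is at most `b ^ ((η + o(1)) k)`, then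
`K` has Hausdorff dimension at least `n (1 - η)`.

In particular (theorem `kakeya`) a Kakeya set with `b ^ (o(k))` shapes has Hausdorff dimension `n`;
segments in the directions `(1, v)`, for a set of `v` of positive outer measure, are enough.
-/

open MeasureTheory Set Filter Topology
open scoped ENNReal

namespace Pool.Agent.Results.MP_b1773a_an.FewShapes

/-- The part of `K` in the `b`-adic cell `∏ [z i / b ^ k, (z i + 1) / b ^ k)` of level `k`, enlarged
by the homothety which carries this cell onto the unit cube `[0, 1) ^ n`. -/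
def shape {n : ℕ} (K : Set (Fin n → ℝ)) (b k : ℕ) (z : Fin n → ℤ) : Set (Fin n → ℝ) :=
  {u | (∀ i, 0 ≤ u i ∧ u i < 1) ∧ (fun i => ((z i : ℝ) + u i) / (b : ℝ) ^ k) ∈ K}

/-- For almost every `v`, for all bases `b` and all compact sets `K`: if `K` contains a segment in
the direction `(1, v)` and has at most `b ^ ((η + o(1)) k)` shapes of `b`-adic cells of level `k`,
then its Hausdorff dimension is at least `(m + 1) (1 - η)`. -/
theorem result (m : ℕ) (hm : 0 < m) : ∀ᵐ v : Fin m → ℝ, ∀ b : ℕ, 2 ≤ b →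
    ∀ K : Set (Fin (m + 1) → ℝ), IsCompact K → ∀ η : ℝ, 0 ≤ η →
    (∀ η' : ℝ, η < η' → ∀ᶠ k : ℕ in atTop,
      ((Set.range (shape K b k)).ncard : ℝ) ≤ (b : ℝ) ^ (η' * k)) →
    (∃ (p : Fin (m + 1) → ℝ) (ℓ : ℝ), 0 < ℓ ∧
      ∀ t ∈ Icc 0 ℓ, p + t • (Fin.cons 1 v : Fin (m + 1) → ℝ) ∈ K) →
    ENNReal.ofReal (((m : ℝ) + 1) * (1 - η)) ≤ dimH K :=
  Pool.Agent.V114.KakCx.main hm

/-- Special case: a Kakeya set with `b ^ (o(k))` shapes of `b`-adic cells of level `k` has full
Hausdorff dimension. -/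
theorem kakeya (m : ℕ) (hm : 0 < m) (b : ℕ) (hb : 2 ≤ b) (K : Set (Fin (m + 1) → ℝ))
    (hK : IsCompact K)
    (hc : ∀ η' : ℝ, 0 < η' → ∀ᶠ k : ℕ in atTop,
      ((Set.range (shape K b k)).ncard : ℝ) ≤ (b : ℝ) ^ (η' * k))
    (hV : volume {v : Fin m → ℝ | ∃ (p : Fin (m + 1) → ℝ) (ℓ : ℝ), 0 < ℓ ∧
      ∀ t ∈ Icc 0 ℓ, p + t • (Fin.cons 1 v : Fin (m + 1) → ℝ) ∈ K} ≠ 0) :
    dimH K = m + 1 := by
  apply le_antisymm
  · refine (dimH_mono (subset_univ K)).trans ?_
    rw [Real.dimH_univ_pi_fin]
    push_cast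
    exact le_refl _
  · by_contra hcon
    apply hV
    refine measure_mono_null ?_ (result m hm)
    intro v hv h
    apply hcon
    have h1 := h b hb K hK 0 le_rfl hc hv
    rw [sub_zero, mul_one] at h1
    refine le_trans (le_of_eq ?_) h1
    rw [ENNReal.ofReal_add (by positivity) zero_le_one, ENNReal.ofReal_natCast, ENNReal.ofReal_one]

end Pool.Agent.Results.MP_b1773a_an.FewShapes
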