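import Pool.Agent.V11222.KO.Assemble

/-!
# Kakeya sets that are locally closed under an order operation

An *order operation* is a function `f : ℝ^m → ℝ` which commutes with all nondecreasing maps
`ℝ → ℝ`, for instance the minimum, the maximum or the median. It acts on the points of `ℝ^n`
through the coordinates with respect to a basis. A set `K ⊆ ℝ^n` is *locally closed under order
operations* if every point of `K` has a neighbourhood `U` and an order operation `f`, not a
projection, both depending on the point, such that `f (x_1, …, x_m) ∈ K` for `x_1, …, x_m ∈ K ∩ U`.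

If such a set contains nondegenerate segments in a set of directions of positive outer measure,
then it has nonempty interior. In particular this holds for Kakeya sets, in every dimension; so
they have Hausdorff dimension `n`, and no Besicovitch set is locally closed under order operations.
-/

set_option autoImplicit false

open MeasureTheory Set
open scoped Topology

namespace Pool.Agent.Results.MP_b1773a_an.OrderOperations

/-- `ℝ^n` -/
abbrev E (n : ℕ) := EuclideanSpace ℝ (Fin n)

/-- An order operation: `f : ℝ^m → ℝ` commutes with all nondecreasing maps `φ : ℝ → ℝ`. -/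
def OrderOp {m : ℕ} (f : (Fin m → ℝ) → ℝ) : Prop :=
  ∀ φ : ℝ → ℝ, Monotone φ → ∀ x : Fin m → ℝ, f (fun l => φ (x l)) = φ (f x)

/-- `f` is not a projection `(x_1, …, x_m) ↦ x_j`. -/
def Nontrivial {m : ℕ} (f : (Fin m → ℝ) → ℝ) : Prop := ¬ ∃ j, ∀ x, f x = x j

/-- `f` applied to the coordinates with respect to the basis `b` of the points `x_1, …, x_m`. -/
noncomputable def app {n m : ℕ} (b : Module.Basis (Fin n) ℝ (E n)) (f : (Fin m → ℝ) → ℝ)
    (x : Fin m → E n) : E n :=
  ∑ i, f (fun l => b.repr (x l) i) • b i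

/-- Every point of `K` has a neighbourhood `U` and a nontrivial order operation `f` such that `K`
contains `f(x_1, …, x_m)` for all `x_1, …, x_m ∈ K ∩ U`. -/
def LocallyClosed {n : ℕ} (b : Module.Basis (Fin n) ℝ (E n)) (K : Set (E n)) : Prop :=
  ∀ p ∈ K, ∃ U ∈ 𝓝 p, ∃ (m : ℕ) (f : (Fin m → ℝ) → ℝ), OrderOp f ∧ Nontrivial f ∧
    ∀ x : Fin m → E n, (∀ l, x l ∈ K ∩ U) → app b f x ∈ K

/-- The vectors `v` for which `K` contains a nondegenerate segment `{a + t v : 0 ≤ t ≤ δ}`. -/
def segs {n : ℕ} (K : Set (E n)) : Set (E n) :=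
  {v | ∃ a : E n, ∃ δ > (0 : ℝ), ∀ t ∈ Icc (0 : ℝ) δ, a + t • v ∈ K}

/-- Kakeya sets: compact sets with a unit segment in every direction. -/
def IsKakeya {n : ℕ} (K : Set (E n)) : Prop :=
  IsCompact K ∧ ∀ ω : E n, ‖ω‖ = 1 → ∃ a : E n, ∀ t ∈ Icc (0 : ℝ) 1, a + t • ω ∈ K

/-- The minimum of two numbers is a nontrivial order operation. -/
theorem orderOp_min : OrderOp (fun x : Fin 2 → ℝ => min (x 0) (x 1)) ∧
    Nontrivial (fun x : Fin 2 → ℝ => min (x 0) (x 1)) := by
  refine ⟨fun φ hφ x => (hφ.map_min).symm, ?_⟩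
  rintro ⟨j, hj⟩
  fin_cases j
  · have := hj ![1, 0]
    simp at this
  · have := hj ![0, 1]
    simp at this

theorem main {n : ℕ} (b : Module.Basis (Fin n) ℝ (E n)) (K : Set (E n)) (hK : LocallyClosed b K)
    (hseg : volume (segs K) ≠ 0) : (interior K).Nonempty := by
  rcases Nat.eq_zero_or_pos n with rfl | hn
  · obtain ⟨v, a, δ, hδ, h⟩ := nonempty_of_measure_ne_zero hseg
    have hx := h 0 ⟨le_rfl, hδ.le⟩
    have huniv : K = univ := by
      apply eq_univ_of_forall
      intro y
      have : y = a + (0 : ℝ) • v := Subsingleton.elim _ _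
      rw [this]; exact hx
    rw [huniv, interior_univ]
    exact ⟨0, trivial⟩
  have : Nonempty (Fin n) := ⟨⟨0, hn⟩⟩
  obtain ⟨L, hL⟩ : ∃ L : E n ≃L[ℝ] (Fin n → ℝ), ∀ x i, L x i = b.repr x i :=
    ⟨b.equivFun.toContinuousLinearEquiv, fun x i => by simp⟩
  have hint := V11222.KO.coords (Fin n) (L '' K) (by
    rintro _ ⟨p, hp, rfl⟩
    obtain ⟨U, hU, m, f, hf, hnt, hcl⟩ := hK p hp
    refine ⟨L '' U, L.toHomeomorph.isOpenMap.image_mem_nhds hU, m, f, hf, hnt, fun x hx => ?_⟩
    have h1 := hcl (fun l => L.symm (x l)) (by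
      intro l
      obtain ⟨⟨y, hy, hyx⟩, ⟨z, hz, hzx⟩⟩ := hx l
      refine ⟨?_, ?_⟩
      · rw [← hyx, L.symm_apply_apply]; exact hy
      · rw [← hzx, L.symm_apply_apply]; exact hz)
    refine ⟨_, h1, ?_⟩
    funext i
    rw [hL, app, map_sum]
    simp only [map_smul, Module.Basis.repr_self, Finsupp.coe_finsetSum, Finset.sum_apply,
      Finsupp.smul_apply, smul_eq_mul, ← hL, L.apply_symm_apply]
    rw [Finset.sum_eq_single i]
    · simp
    · intro j _ hji
      simp [hji]
    · intro h; exact absurd (Finset.mem_univ _) h) (L '' segs K)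
    (V11222.KO.image_ne_zero volume L hseg) (by
    rintro _ ⟨v, ⟨a, δ, hδ, h⟩, rfl⟩
    refine ⟨L a, δ, hδ, fun t ht => ⟨_, h t ht, ?_⟩⟩
    rw [map_add, map_smul])
  obtain ⟨y, hy⟩ := hint
  refine ⟨L.symm y, ?_⟩
  refine interior_maximal (t := L ⁻¹' interior (L '' K)) ?_
    (isOpen_interior.preimage L.continuous) ?_
  · intro x hx
    obtain ⟨z, hz, hzx⟩ := interior_subset hx
    rwa [← L.injective hzx]
  · rw [mem_preimage, L.apply_symm_apply]; exact hy

theorem kakeya_segs {n : ℕ} {K : Set (E n)} (hK : IsKakeya K) (hn : 0 < n) :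
    volume (segs K) ≠ 0 := by
  have hsub : (univ : Set (E n)) \ {0} ⊆ segs K := by
    rintro v ⟨-, hv⟩
    have hv0 : v ≠ 0 := hv
    have hnv : 0 < ‖v‖ := norm_pos_iff.2 hv0
    obtain ⟨a, ha⟩ := hK.2 (‖v‖⁻¹ • v) (by
      rw [norm_smul, norm_inv, norm_norm, inv_mul_cancel₀ hnv.ne'])
    refine ⟨a, ‖v‖⁻¹, inv_pos.2 hnv, fun t ht => ?_⟩
    have h1 := ha (t * ‖v‖) ⟨mul_nonneg ht.1 hnv.le, by
      have := mul_le_mul_of_nonneg_right ht.2 hnv.le
      rwa [inv_mul_cancel₀ hnv.ne'] at this⟩
    rwa [smul_smul, mul_assoc, mul_inv_cancel₀ hnv.ne', mul_one] at h1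
  have : Nonempty (Fin n) := ⟨⟨0, hn⟩⟩
  have hpos : volume ((univ : Set (E n)) \ {0}) ≠ 0 := by
    have hopen : IsOpen ((univ : Set (E n)) \ {0}) := by
      rw [← compl_eq_univ_sdiff]; exact isOpen_compl_singleton
    refine (hopen.measure_pos volume ?_).ne'
    have : _root_.Nontrivial (E n) := inferInstance
    obtain ⟨x, hx⟩ := exists_ne (0 : E n)
    exact ⟨x, trivial, hx⟩
  exact fun h => hpos (measure_mono_null hsub h)

/-- **Main result.** Let `b` be a basis of `ℝ^n` and let `K ⊆ ℝ^n` be locally closed under order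
operations of the coordinates with respect to `b` (any set, not necessarily measurable).

1. If the set of the vectors parallel to a nondegenerate segment contained in `K` is not a null
   set, then `K` has nonempty interior; in particular `K` has Hausdorff dimension `n` and positive
   measure.
2. In particular this holds if `K` is a Kakeya set, for all `n ≥ 1`. -/
theorem result :
    (∀ (n : ℕ) (b : Module.Basis (Fin n) ℝ (E n)) (K : Set (E n)), LocallyClosed b K →
      volume (segs K) ≠ 0 → (interior K).Nonempty ∧ 0 < volume K ∧ dimH K = n) ∧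
    (∀ (n : ℕ) (b : Module.Basis (Fin n) ℝ (E n)) (K : Set (E n)), 1 ≤ n → IsKakeya K →
      LocallyClosed b K → (interior K).Nonempty ∧ 0 < volume K ∧ dimH K = n) := by
  have key : ∀ (n : ℕ) (b : Module.Basis (Fin n) ℝ (E n)) (K : Set (E n)), LocallyClosed b K →
      volume (segs K) ≠ 0 → (interior K).Nonempty ∧ 0 < volume K ∧ dimH K = n := by
    intro n b K hK hs
    have h1 := main b K hK hs
    refine ⟨h1, Measure.measure_pos_of_nonempty_interior _ h1, ?_⟩
    rw [Real.dimH_of_nonempty_interior h1, finrank_euclideanSpace_fin]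
  exact ⟨key, fun n b K hn hKak hK => key n b K hK (kakeya_segs hKak hn)⟩

end Pool.Agent.Results.MP_b1773a_an.OrderOperations
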