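import Mathlib
import Pool.Agent.W769.Kak.Sphere

/-!
# Kakeya sets with a continuous selection in the critical Sobolev class have positive measure

Write `ℝ^n = ℝ × ℝ^d`, `n = d + 1 ≥ 2`, and let `Q` be a cube in `ℝ^d`. The line with direction `(1, v)`
through the point `(0, a v)` meets the hyperplane `{t} × ℝ^d` in `(t, a v + t v)`.

(1) Let `a` be continuous on `Q`, with `∫_Q ∫_Q |a v - a w|^d / |v - w|^(2d-1) dv dw < ∞`; this is the
fractional Sobolev class `W^(s,p)` with `p = d = n - 1` and `s = 1 - 1/d`. Then for all `t ∈ ℝ` with at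
most `d` exceptions the set `{a v + t v : v ∈ Q}` has positive `d`-dimensional measure; and every set
which contains the segments `{(t, a v + t v) : t₁ ≤ t ≤ t₂}`, `v ∈ Q`, has positive measure.

(2) If `K ⊆ ℝ^n` contains unit segments `x(e) + [0,1] e` for all `e` in a nonempty relatively open
subset of the unit sphere, and `x` is `α`-Hölder there for some `α > (n - 2) / (n - 1)`, then `K` has
positive Lebesgue measure.
-/

set_option autoImplicit false

open MeasureTheory Set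
open scoped ENNReal

namespace Pool.Agent.Results.MP_b1773a_an.SobolevSelection

/-- The cube with centre `v₀` and side `2 R` (the closed ball of the maximum norm). -/
abbrev cube {d : ℕ} (v₀ : Fin d → ℝ) (R : ℝ) : Set (Fin d → ℝ) := Metric.closedBall v₀ R

/-- The critical Sobolev energy `∫_Q ∫_Q |a v - a w|^d / |v - w|^(2d-1) dw dv`. -/
noncomputable def energy {d : ℕ} (a : (Fin d → ℝ) → Fin d → ℝ) (Q : Set (Fin d → ℝ)) : ℝ≥0∞ :=
  ∫⁻ v in Q, ∫⁻ w in Q, ‖a v - a w‖ₑ ^ d / ‖v - w‖ₑ ^ (2 * d - 1)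

/-- Positive measure of the sets that contain segments in all directions of an open set, when the
segments depend continuously on the direction, in the critical Sobolev class, or in a Hölder class. -/
theorem result :
    -- (1) the critical Sobolev class
    (∀ (d : ℕ) (a : (Fin d → ℝ) → Fin d → ℝ) (v₀ : Fin d → ℝ) (R : ℝ), 1 ≤ d → 0 < R →
      ContinuousOn a (cube v₀ R) → energy a (cube v₀ R) < ⊤ →
      {t : ℝ | volume ((fun v => a v + t • v) '' cube v₀ R) = 0}.encard ≤ d ∧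
      ∀ (t₁ t₂ : ℝ) (K : Set (Fin (d + 1) → ℝ)), t₁ < t₂ →
        (∀ v ∈ cube v₀ R, ∀ t ∈ Icc t₁ t₂, (Fin.cons t (a v + t • v) : Fin (d + 1) → ℝ) ∈ K) →
        0 < volume K) ∧
    -- (2) the Hölder class
    (∀ (n : ℕ) (α C : ℝ), 2 ≤ n → ((n : ℝ) - 2) / ((n : ℝ) - 1) < α → α ≤ 1 →
      ∀ (W : Set (EuclideanSpace ℝ (Fin n))), IsOpen W → (∃ e₀ ∈ W, ‖e₀‖ = 1) →
      ∀ (x : EuclideanSpace ℝ (Fin n) → EuclideanSpace ℝ (Fin n)),
        (∀ e ∈ W, ‖e‖ = 1 → ∀ e' ∈ W, ‖e'‖ = 1 → ‖x e - x e'‖ ≤ C * ‖e - e'‖ ^ α) →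
      ∀ (K : Set (EuclideanSpace ℝ (Fin n))),
        (∀ e ∈ W, ‖e‖ = 1 → ∀ s ∈ Icc (0 : ℝ) 1, x e + s • e ∈ K) → 0 < volume K) := by
  constructor
  · intro d a v₀ R hd hR ha hE
    have h1 : {t : ℝ | volume ((fun v => a v + t • v) '' cube v₀ R) = 0}.encard ≤ d := by
      apply Pool.Agent.W769.Kak.encard_bad_le
      intro t ht
      exact Pool.Agent.W769.Kak.slices_on hd v₀ hR ha hE.ne t ht
    refine ⟨h1, fun t₁ t₂ K h12 hK => ?_⟩
    rw [pos_iff_ne_zero]
    refine Pool.Agent.W769.Kak.swept_pos (σ := fun v => v) ha continuousOn_id h12 ?_ hK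
    exact (Set.finite_of_encard_le_coe h1).countable
  · intro n α C hn hα hα1 W hW hWne x hx K hK
    obtain ⟨e₀, he0, he1⟩ := hWne
    obtain ⟨k, rfl⟩ : ∃ k, n = k + 1 := ⟨n - 1, by omega⟩
    have hk : 1 ≤ k := by omega
    have hk0 : (0 : ℝ) < k := by exact_mod_cast hk
    have h1 : 1 - 1 / (k : ℝ) < α := by
      refine lt_of_eq_of_lt ?_ hα
      have e1 : ((k + 1 : ℕ) : ℝ) - 1 = k := by push_cast; ring
      have e2 : ((k + 1 : ℕ) : ℝ) - 2 = k - 1 := by push_cast; ring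
      rw [e1, e2, sub_div, div_self hk0.ne']
    obtain ⟨ι, hι⟩ := Pool.Agent.W769.Kak.hoelder_sphere hk le_rfl h1 hα1 hW he0 he1 hx hK
    exact Pool.Agent.W769.Kak.volume_pos_of_proj ι hι

end Pool.Agent.Results.MP_b1773a_an.SobolevSelection
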