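import Pool.Agent.V1282.TW.Haus

set_option autoImplicit false
set_option maxHeartbeats 1000000

/-!
# MP_b1773a: the Kakeya conjecture for sets whose segments lie on towers of families of lines

Work in `ℝ^n = ℝ^d × ℝ`, `n = d + 1`, with its Euclidean norm (`Space d`).  A family of lines, one line
`{(b v + t v, t)}` for each slope `v` in a set `B` of the unit ball of `ℝ^d`, is given by a map `b`.

A map `b` on a set `B` of slopes is a *tower* (`Tower`, in `Pool.Agent.V1282.TW.Defs`) if it is built
from *stages* by two operations: countable decompositions of `B`, with summable multiplicities, and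
*skew products*.  In a skew product the slopes are split, `ℝ^d = ℝ^{d1} × ℝ^{d2}` (an arbitrary
orthogonal splitting), the first component of `b(v1, v2)` is `b1(v1)` for a tower `b1` of dimension
`d1`, and the second one is `b2(v1)(v2)`, where for each `v1` the map `b2(v1)` is a tower of dimension
`d2`; its dependence on `v1` is completely arbitrary (measurable).  The stages are arbitrary planar
families (`d = 1`), families of bounded overlap that are Lipschitz on countably many pieces,
section-monotone families, families with Taylor constants `A k` of all orders `k` (in particular smooth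
families), and all families that satisfy the Kakeya maximal estimate with the constants `c ε`.

We prove: if `K ⊆ ℝ^n` is any set (compact or not), and for all slopes `v` in a set of positive outer
measure the set `K` meets in positive length one of the at most countably many lines of slope `v` that
are given by a sequence of towers, then `K` has Hausdorff dimension `n`.
-/

open MeasureTheory Set ENNReal NNReal Metric

namespace Pool.Agent.Results.MP_b1773a_an.TowerSelection

open Pool.Agent.V1282.TW

/-- **The Kakeya conjecture, Hausdorff form, for sets whose segments lie on countably many towers of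
lines**, in every dimension `n = d + 1 ≥ 2`. -/
theorem result (d : ℕ) (hd : 1 ≤ d) (A : ℕ → ℕ → ℝ) (c : ℕ → ℝ → ℕ → ℝ≥0) (M : ℕ → ℝ≥0)
    (B : ℕ → Set (Vec d)) (b : ℕ → Vec d → Vec d)
    (hT : ∀ j, Tower (Stage (A j) (c j)) d (M j) (B j) (b j)) (K : Set (Space d))
    (hK : 0 < volume {v : Vec d | ∃ j, v ∈ B j ∧ 0 < volume {t : ℝ | linePt (b j) v t ∈ K}}) :
    dimH K = (d + 1 : ℕ) := by
  apply le_antisymm
  · have h := dimH_mono (subset_univ K)
    rw [Real.dimH_univ_eq_finrank] at h
    have hfr : Module.finrank ℝ (Space d) = d + 1 := by
      have : Module.finrank ℝ (Space d) = Module.finrank ℝ (Vec d × ℝ) :=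
        LinearEquiv.finrank_eq (WithLp.linearEquiv 2 ℝ (Vec d × ℝ))
      rw [this, Module.finrank_prod]
      simp
    rwa [hfr] at h
  · set S : ℕ → Set (Vec d) := fun j =>
      {v | v ∈ B j ∧ 0 < volume {t : ℝ | linePt (b j) v t ∈ K}} with hS
    have hex : ∃ j, volume (S j) ≠ 0 := by
      by_contra hcon
      push Not at hcon
      apply hK.ne'
      refine measure_mono_null ?_ (measure_iUnion_null hcon)
      rintro v ⟨j, hj⟩
      exact mem_iUnion.2 ⟨j, hj⟩
    obtain ⟨j, hj⟩ := hex
    obtain ⟨⟨hB, hB1, hb⟩, hW⟩ := tower_whyp hd (A j) (c j) (hT j)
    have h1 := dim_ge hB hb hB1 (S := S j) (fun v hv => hv.1) hW (K := K) hj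
      (fun v hv => hv.2.ne')
    have h2 : ((d + 1 : ℕ) : ℝ≥0∞) = ENNReal.ofReal ((d : ℝ) + 1) := by
      rw [← ENNReal.ofReal_natCast]
      push_cast
      rfl
    rw [h2]
    exact h1

end Pool.Agent.Results.MP_b1773a_an.TowerSelection
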